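import Mathlib

namespace Pool.Agent.Results.MP_b81f9a_an.Counterexample

open MeasureTheory Set ProbabilityTheory Real
open scoped ENNReal NNReal

/-- `a` is a (finite) Stieltjes moment sequence. -/
def IsStieltjes (a : ℕ → ℝ) : Prop :=
  (∀ n, 0 ≤ a n) ∧ ∃ μ : Measure ℝ≥0, ∀ n, ∫⁻ x, (x : ℝ≥0∞) ^ n ∂μ = ENNReal.ofReal (a n)

lemma finite_of_moments {a : ℕ → ℝ} {μ : Measure ℝ≥0}
    (hμ : ∀ n, ∫⁻ x, (x : ℝ≥0∞) ^ n ∂μ = ENNReal.ofReal (a n)) : IsFiniteMeasure μ := by
  refine ⟨?_⟩
  have := hμ 0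
  simp only [pow_zero, lintegral_const, one_mul] at this
  rw [this]
  exact ENNReal.ofReal_lt_top

lemma IsStieltjes.mul {a b : ℕ → ℝ} (ha : IsStieltjes a) (hb : IsStieltjes b) :
    IsStieltjes (fun n => a n * b n) := by
  obtain ⟨ha0, μ, hμ⟩ := ha
  obtain ⟨hb0, ν, hν⟩ := hb
  have h1 : IsFiniteMeasure μ := finite_of_moments hμ
  have h2 : IsFiniteMeasure ν := finite_of_moments hν
  refine ⟨fun n => mul_nonneg (ha0 n) (hb0 n), (μ.prod ν).map (fun p => p.1 * p.2), fun n => ?_⟩
  rw [lintegral_map (by fun_prop) (by fun_prop)]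
  simp only [ENNReal.coe_mul, mul_pow]
  rw [lintegral_prod_mul (f := fun x : ℝ≥0 => (x : ℝ≥0∞) ^ n)
    (g := fun x : ℝ≥0 => (x : ℝ≥0∞) ^ n) (by fun_prop) (by fun_prop), hμ, hν,
    ENNReal.ofReal_mul (ha0 n)]

lemma isStieltjes_geom {C r : ℝ} (hC : 0 ≤ C) (hr : 0 ≤ r) :
    IsStieltjes (fun n => C * r ^ n) := by
  refine ⟨fun n => by positivity, ENNReal.ofReal C • Measure.dirac (Real.toNNReal r), fun n => ?_⟩
  rw [lintegral_smul_measure, lintegral_dirac, smul_eq_mul, ENNReal.ofReal_mul hC,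
    ENNReal.ofReal_pow hr]
  rfl

lemma isStieltjes_one : IsStieltjes (fun _ => 1) := by
  simpa using isStieltjes_geom (C := 1) (r := 1) (by norm_num) (by norm_num)

lemma IsStieltjes.prod {ι : Type*} (s : Finset ι) (a : ι → ℕ → ℝ)
    (h : ∀ i ∈ s, IsStieltjes (a i)) : IsStieltjes (fun n => ∏ i ∈ s, a i n) := by
  classical
  induction s using Finset.induction_on with
  | empty => simpa using isStieltjes_one
  | insert i s his ih =>
    simp only [Finset.prod_insert his]
    exact (h i (Finset.mem_insert_self i s)).mul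
      (ih fun j hj => h j (Finset.mem_insert_of_mem hj))

/-- ratios of Gamma functions are moment sequences (Beta moments) -/
lemma isStieltjes_beta {a b τ : ℝ} (ha : 0 < a) (hab : a ≤ b) (hτ : 0 < τ) :
    IsStieltjes (fun n => Real.Gamma (a + τ * n) / Real.Gamma (b + τ * n)) := by
  have hb : 0 < b := ha.trans_le hab
  rcases hab.eq_or_lt with rfl | hab
  · have : (fun n : ℕ => Real.Gamma (a + τ * n) / Real.Gamma (a + τ * n)) = fun _ => 1 := by
      ext n
      exact div_self (Real.Gamma_pos_of_pos (by positivity)).ne'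
    rw [this]; exact isStieltjes_one
  have hc : 0 < b - a := sub_pos.2 hab
  have hGa := Real.Gamma_pos_of_pos ha
  have hGb := Real.Gamma_pos_of_pos hb
  refine ⟨fun n => div_nonneg (Real.Gamma_pos_of_pos (by positivity)).le
    (Real.Gamma_pos_of_pos (by positivity)).le,
    ENNReal.ofReal (Real.Gamma a / Real.Gamma b) •
      (betaMeasure a (b - a)).map (fun x => Real.toNNReal (x ^ τ)), fun n => ?_⟩
  have hmeas : Measurable (fun x : ℝ => Real.toNNReal (x ^ τ)) := by fun_prop
  rw [lintegral_smul_measure, lintegral_map (by fun_prop) hmeas, betaMeasure,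
    lintegral_withDensity_eq_lintegral_mul _ (by unfold betaPDF; fun_prop) (by fun_prop)]
  have hn : 0 < a + τ * n := by positivity
  have hn' : 0 < b + τ * n := by positivity
  have key : ∀ x : ℝ, (betaPDF a (b - a) * fun x : ℝ => ((Real.toNNReal (x ^ τ) : ℝ≥0∞)) ^ n) x =
      ENNReal.ofReal (beta (a + τ * n) (b - a) / beta a (b - a)) *
        betaPDF (a + τ * n) (b - a) x := by
    intro x
    simp only [Pi.mul_apply]
    by_cases hx : 0 < x ∧ x < 1
    · rw [betaPDF_of_pos_lt_one hx.1 hx.2, betaPDF_of_pos_lt_one hx.1 hx.2]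
      have h1 : ((Real.toNNReal (x ^ τ) : ℝ≥0∞)) ^ n = ENNReal.ofReal (x ^ (τ * n)) := by
        change (ENNReal.ofReal (x ^ τ)) ^ n = _
        rw [← ENNReal.ofReal_pow (Real.rpow_nonneg hx.1.le _), ← Real.rpow_natCast,
          ← Real.rpow_mul hx.1.le]
      have hb1 := beta_pos ha hc
      have hb2 := beta_pos hn hc
      have hx1 : 0 < 1 - x := by linarith [hx.2]
      have hx0 := hx.1
      rw [h1, ← ENNReal.ofReal_mul (by positivity), ← ENNReal.ofReal_mul (by positivity)]
      congr 1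
      have h2 : x ^ (a + τ * n - 1) = x ^ (a - 1) * x ^ (τ * n) := by
        rw [← Real.rpow_add hx.1]; congr 1; ring
      rw [h2]
      field_simp
    · have h0 : ∀ u v : ℝ, betaPDF u v x = 0 := by
        intro u v
        rw [betaPDF_eq, if_neg hx, ENNReal.ofReal_zero]
      rw [h0, h0, zero_mul, mul_zero]
  rw [lintegral_congr key, lintegral_const_mul _ (by unfold betaPDF; fun_prop),
    lintegral_betaPDF_eq_one hn hc, mul_one, smul_eq_mul, ← ENNReal.ofReal_mul (by positivity)]
  congr 1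
  unfold beta
  have e1 : a + (b - a) = b := by ring
  have e2 : a + τ * n + (b - a) = b + τ * n := by ring
  rw [e1, e2]
  have hGc := Real.Gamma_pos_of_pos hc
  have hGn := Real.Gamma_pos_of_pos hn
  have hGn' := Real.Gamma_pos_of_pos hn'
  field_simp

/-- Gauss' multiplication formula, from Bohr-Mollerup. -/
lemma gauss_mult (N : ℕ) (hN : 0 < N) {y : ℝ} (hy : 0 < y) :
    Real.Gamma y * ∏ j ∈ Finset.range N, Real.Gamma ((1 + j) / N) =
      (N : ℝ) ^ (y - 1) * ∏ j ∈ Finset.range N, Real.Gamma ((y + j) / N) := by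
  have hN' : (0 : ℝ) < N := by exact_mod_cast hN
  set D : ℝ := ∏ j ∈ Finset.range N, Real.Gamma ((1 + j) / N) with hD
  have hDpos : 0 < D := by
    apply Finset.prod_pos
    intro j _
    apply Real.Gamma_pos_of_pos
    positivity
  set f : ℝ → ℝ := fun y => (N : ℝ) ^ (y - 1) * (∏ j ∈ Finset.range N, Real.Gamma ((y + j) / N)) / D
    with hf
  clear_value D
  have hprod_pos : ∀ {y : ℝ}, 0 < y → 0 < ∏ j ∈ Finset.range N, Real.Gamma ((y + j) / N) := by
    intro y hy
    apply Finset.prod_pos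
    intro j _
    apply Real.Gamma_pos_of_pos
    positivity
  have hpos : ∀ {y : ℝ}, 0 < y → 0 < f y := by
    intro y hy
    have := hprod_pos hy
    simp only [hf]
    positivity
  have hone : f 1 = 1 := by
    simp only [hf, sub_self, Real.rpow_zero, one_mul]
    rw [← hD]
    exact div_self hDpos.ne'
  have hfeq : ∀ {y : ℝ}, 0 < y → f (y + 1) = y * f y := by
    intro y hy
    have h1 : (∏ j ∈ Finset.range N, Real.Gamma ((y + 1 + j) / N)) * Real.Gamma (y / N) =
        (∏ j ∈ Finset.range N, Real.Gamma ((y + j) / N)) * Real.Gamma (y / N + 1) := by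
      have e1 : ∏ j ∈ Finset.range (N + 1), Real.Gamma ((y + j) / N) =
          (∏ j ∈ Finset.range N, Real.Gamma ((y + j) / N)) * Real.Gamma (y / N + 1) := by
        rw [Finset.prod_range_succ]
        congr 2
        field_simp
      have e2 : ∏ j ∈ Finset.range (N + 1), Real.Gamma ((y + j) / N) =
          (∏ j ∈ Finset.range N, Real.Gamma ((y + 1 + j) / N)) * Real.Gamma (y / N) := by
        rw [Finset.prod_range_succ']
        congr 1
        · apply Finset.prod_congr rfl
          intro j _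
          congr 2
          push_cast; ring
        · simp
      rw [← e1, e2]
    have hG : Real.Gamma (y / N + 1) = (y / N) * Real.Gamma (y / N) :=
      Real.Gamma_add_one (by positivity)
    have hGp : 0 < Real.Gamma (y / N) := Real.Gamma_pos_of_pos (by positivity)
    have h2 : ∏ j ∈ Finset.range N, Real.Gamma ((y + 1 + j) / N) =
        (∏ j ∈ Finset.range N, Real.Gamma ((y + j) / N)) * (y / N) := by
      rw [hG, ← mul_assoc] at h1
      exact mul_right_cancel₀ hGp.ne' h1
    simp only [hf]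
    rw [h2]
    have h3 : (N : ℝ) ^ (y + 1 - 1) = (N : ℝ) ^ (y - 1) * N := by
      rw [← Real.rpow_add_one hN'.ne']; congr 1; ring
    rw [h3]
    field_simp
  have hconv : ConvexOn ℝ (Ioi 0) (Real.log ∘ f) := by
    have hlog : EqOn (fun y : ℝ => (∑ j ∈ Finset.range N, Real.log (Real.Gamma ((y + j) / N)))
        + (y - 1) * Real.log N - Real.log D) (Real.log ∘ f) (Ioi 0) := by
      intro y hy
      have hy : 0 < y := hy
      have hlp : Real.log (∏ j ∈ Finset.range N, Real.Gamma ((y + j) / N)) =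
          ∑ j ∈ Finset.range N, Real.log (Real.Gamma ((y + j) / N)) := by
        apply Real.log_prod
        intro j _
        exact (Real.Gamma_pos_of_pos (by positivity)).ne'
      simp only [Function.comp, hf]
      rw [Real.log_div (mul_pos (by positivity) (hprod_pos hy)).ne' hDpos.ne',
        Real.log_mul (by positivity) (hprod_pos hy).ne', hlp, Real.log_rpow hN']
      ring
    refine ConvexOn.congr ?_ hlog
    have hsum : ConvexOn ℝ (Ioi 0)
        (fun y : ℝ => ∑ j ∈ Finset.range N, Real.log (Real.Gamma ((y + j) / N))) := by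
      have hterm : ∀ j : ℕ, ConvexOn ℝ (Ioi 0)
          (fun y : ℝ => Real.log (Real.Gamma ((y + j) / N))) := by
        intro j
        refine ⟨convex_Ioi 0, ?_⟩
        intro x hx y hy a b ha hb hab
        have hx' : 0 < x := hx
        have hy' : 0 < y := hy
        have := Real.convexOn_log_Gamma.2 (x := (x + j) / N) (y := (y + j) / N)
          (show (0:ℝ) < (x + j) / N by positivity) (show (0:ℝ) < (y + j) / N by positivity) ha hb hab
        simp only [Function.comp, smul_eq_mul] at this ⊢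
        convert this using 3
        field_simp
        linear_combination (-(j : ℝ)) * hab
      clear hlog
      induction (Finset.range N) using Finset.induction_on with
      | empty => simpa using convexOn_const (𝕜 := ℝ) (0 : ℝ) (convex_Ioi (0 : ℝ))
      | insert i s his ih =>
        simp only [Finset.sum_insert his]
        exact (hterm i).add ih
    have hlin : ConvexOn ℝ (Ioi 0) (fun y : ℝ => (y - 1) * Real.log N) := by
      refine ⟨convex_Ioi 0, ?_⟩
      intro x _ y _ a b _ _ hab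
      apply le_of_eq
      simp only [smul_eq_mul]
      linear_combination (Real.log N) * hab
    exact (hsum.add hlin).add_const _
  have hmain := Real.eq_Gamma_of_log_convex hconv hfeq hpos hone hy
  simp only [hf] at hmain
  rw [← hmain]
  field_simp


/-- the non infinitely divisible factor: `(5/4 + η n)² Γ(1 + η n)` -/
lemma isStieltjes_quad {η : ℝ} (hη : 0 < η) :
    IsStieltjes (fun n => (5 / 4 + η * n) ^ 2 * Real.Gamma (1 + η * n)) := by
  refine ⟨fun n => mul_nonneg (sq_nonneg _) (Real.Gamma_pos_of_pos (by positivity)).le,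
    ((volume.restrict (Ioi (0 : ℝ))).withDensity
      (fun y => ENNReal.ofReal ((y - 1 / 4) ^ 2 * Real.exp (-y)))).map
      (fun y => Real.toNNReal (y ^ η)), fun n => ?_⟩
  have hmeas : Measurable (fun x : ℝ => Real.toNNReal (x ^ η)) := by fun_prop
  rw [lintegral_map (by fun_prop) hmeas,
    lintegral_withDensity_eq_lintegral_mul _ (by fun_prop) (by fun_prop)]
  set s : ℝ := η * n with hs
  have hs0 : 0 ≤ s := by positivity
  have key : ∫⁻ y in Ioi (0 : ℝ), ((fun y => ENNReal.ofReal ((y - 1 / 4) ^ 2 * Real.exp (-y))) *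
      fun y => ((Real.toNNReal (y ^ η) : ℝ≥0∞)) ^ n) y =
      ∫⁻ y in Ioi (0 : ℝ), ENNReal.ofReal (Real.exp (-y) * y ^ (s + 3 - 1)
        - (1 / 2) * (Real.exp (-y) * y ^ (s + 2 - 1)) + (1 / 16) * (Real.exp (-y) * y ^ (s + 1 - 1))) := by
    apply setLIntegral_congr_fun measurableSet_Ioi
    intro y hy
    have hy : 0 < y := hy
    simp only [Pi.mul_apply]
    have h1 : ((Real.toNNReal (y ^ η) : ℝ≥0∞)) ^ n = ENNReal.ofReal (y ^ s) := by
      change (ENNReal.ofReal (y ^ η)) ^ n = _
      rw [← ENNReal.ofReal_pow (Real.rpow_nonneg hy.le _), ← Real.rpow_natCast,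
        ← Real.rpow_mul hy.le]
    rw [h1, ← ENNReal.ofReal_mul (by positivity)]
    congr 1
    have e3 : y ^ (s + 3 - 1) = y ^ s * y ^ 2 := by
      rw [show s + 3 - 1 = s + (2 : ℕ) by push_cast; ring, Real.rpow_add hy, Real.rpow_natCast]
    have e2 : y ^ (s + 2 - 1) = y ^ s * y := by
      rw [show s + 2 - 1 = s + 1 by ring, Real.rpow_add hy, Real.rpow_one]
    have e1 : y ^ (s + 1 - 1) = y ^ s := by
      rw [show s + 1 - 1 = s by ring]
    rw [e3, e2, e1]
    ring
  rw [key]
  have i3 := Real.GammaIntegral_convergent (s := s + 3) (by positivity)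
  have i2 := Real.GammaIntegral_convergent (s := s + 2) (by positivity)
  have i1 := Real.GammaIntegral_convergent (s := s + 1) (by positivity)
  have hint : IntegrableOn (fun y => Real.exp (-y) * y ^ (s + 3 - 1)
        - (1 / 2) * (Real.exp (-y) * y ^ (s + 2 - 1))
        + (1 / 16) * (Real.exp (-y) * y ^ (s + 1 - 1))) (Ioi 0) :=
    (i3.sub (i2.const_mul _)).add (i1.const_mul _)
  rw [← ofReal_integral_eq_lintegral_ofReal hint]
  · congr 1
    have e1 := integral_add (μ := volume.restrict (Ioi (0 : ℝ)))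
      (f := fun y => Real.exp (-y) * y ^ (s + 3 - 1) - (1 / 2) * (Real.exp (-y) * y ^ (s + 2 - 1)))
      (g := fun y => (1 / 16) * (Real.exp (-y) * y ^ (s + 1 - 1)))
      (i3.sub (i2.const_mul _)) (i1.const_mul _)
    have e2 := integral_sub (μ := volume.restrict (Ioi (0 : ℝ)))
      (f := fun y => Real.exp (-y) * y ^ (s + 3 - 1))
      (g := fun y => (1 / 2) * (Real.exp (-y) * y ^ (s + 2 - 1))) i3 (i2.const_mul _)
    rw [e1, e2, integral_const_mul, integral_const_mul,
      ← Real.Gamma_eq_integral (by positivity), ← Real.Gamma_eq_integral (by positivity),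
      ← Real.Gamma_eq_integral (by positivity)]
    have g3 : Real.Gamma (s + 3) = (s + 2) * ((s + 1) * Real.Gamma (s + 1)) := by
      rw [show s + 3 = (s + 2) + 1 by ring, Real.Gamma_add_one (by positivity),
        show s + 2 = (s + 1) + 1 by ring, Real.Gamma_add_one (s := s + 1) (by positivity)]
    have g2 : Real.Gamma (s + 2) = (s + 1) * Real.Gamma (s + 1) := by
      rw [show s + 2 = (s + 1) + 1 by ring, Real.Gamma_add_one (by positivity)]
    rw [g3, g2]
    change _ = (5 / 4 + s) ^ 2 * Real.Gamma (1 + s)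
    rw [add_comm 1 s]
    ring
  · filter_upwards [ae_restrict_mem measurableSet_Ioi] with y hy
    have hy : 0 < y := hy
    have e3 : y ^ (s + 3 - 1) = y ^ s * y ^ 2 := by
      rw [show s + 3 - 1 = s + (2 : ℕ) by push_cast; ring, Real.rpow_add hy, Real.rpow_natCast]
    have e2 : y ^ (s + 2 - 1) = y ^ s * y := by
      rw [show s + 2 - 1 = s + 1 by ring, Real.rpow_add hy, Real.rpow_one]
    have e1 : y ^ (s + 1 - 1) = y ^ s := by
      rw [show s + 1 - 1 = s by ring]
    simp only [Pi.zero_apply]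
    rw [e3, e2, e1]
    have : 0 ≤ (y - 1 / 4) ^ 2 * Real.exp (-y) * y ^ s := by positivity
    linarith [this]

/-- The key fact: `n! / Γ(n/100 + 5/392)²` is a Stieltjes moment sequence. -/
lemma isStieltjes_main :
    IsStieltjes (fun n => (n.factorial : ℝ) / (Real.Gamma ((1 / 100) * n + 5 / 392)) ^ 2) := by
  -- the constants
  set D100 : ℝ := ∏ j ∈ Finset.range 100, Real.Gamma ((1 + j) / (100 : ℕ)) with hD100
  set D98 : ℝ := ∏ j ∈ Finset.range 98, Real.Gamma ((1 + j) / (98 : ℕ)) with hD98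
  have hD100pos : 0 < D100 := by
    apply Finset.prod_pos
    intro j _
    apply Real.Gamma_pos_of_pos
    positivity
  have hD98pos : 0 < D98 := by
    apply Finset.prod_pos
    intro j _
    apply Real.Gamma_pos_of_pos
    positivity
  clear_value D100 D98
  set r : ℝ := 100 / (98 : ℝ) ^ (49 / 50 : ℝ) with hr
  have hrpos : 0 < r := by positivity
  have h1 : IsStieltjes (fun n => (1 / 100) ^ 2 * ((50 / 49) ^ 2 * (D98 / D100)) * r ^ n) :=
    isStieltjes_geom (by positivity) hrpos.le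
  have h2 : IsStieltjes (fun n => (5 / 4 + (49 / 50) * n) ^ 2 * Real.Gamma (1 + (49 / 50) * n)) :=
    isStieltjes_quad (by norm_num)
  have h3 : IsStieltjes (fun n => ∏ j ∈ Finset.range 98,
      (Real.Gamma ((1 + j) / 100 + (1 / 100) * n) / Real.Gamma ((1 + j) / 98 + (1 / 100) * n))) := by
    apply IsStieltjes.prod
    intro j _
    apply isStieltjes_beta (by positivity) _ (by norm_num)
    apply div_le_div_of_nonneg_left (by positivity) (by norm_num) (by norm_num)
  have h4 : IsStieltjes (fun n => Real.Gamma (99 / 100 + (1 / 100) * n) /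
      Real.Gamma (1 + 5 / 392 + (1 / 100) * n)) :=
    isStieltjes_beta (by norm_num) (by norm_num) (by norm_num)
  have h5 : IsStieltjes (fun n => Real.Gamma (1 + (1 / 100) * n) /
      Real.Gamma (1 + 5 / 392 + (1 / 100) * n)) :=
    isStieltjes_beta (by norm_num) (by norm_num) (by norm_num)
  have h := (((h1.mul h2).mul h3).mul h4).mul h5
  have hfun : (fun n : ℕ => (n.factorial : ℝ) / (Real.Gamma ((1 / 100) * n + 5 / 392)) ^ 2) =
      fun n : ℕ => (1 / 100) ^ 2 * ((50 / 49) ^ 2 * (D98 / D100)) * r ^ n *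
        ((5 / 4 + (49 / 50) * n) ^ 2 * Real.Gamma (1 + (49 / 50) * n)) *
        (∏ j ∈ Finset.range 98,
          (Real.Gamma ((1 + j) / 100 + (1 / 100) * n) /
            Real.Gamma ((1 + j) / 98 + (1 / 100) * n))) *
        (Real.Gamma (99 / 100 + (1 / 100) * n) / Real.Gamma (1 + 5 / 392 + (1 / 100) * n)) *
        (Real.Gamma (1 + (1 / 100) * n) / Real.Gamma (1 + 5 / 392 + (1 / 100) * n)) := by
    funext n
    have g1 := gauss_mult 100 (by norm_num) (y := 1 + n) (by positivity)
    have g2 := gauss_mult 98 (by norm_num) (y := 1 + (49 / 50) * n) (by positivity)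
    rw [← hD100] at g1
    rw [← hD98] at g2
    rw [Finset.prod_range_succ, Finset.prod_range_succ] at g1
    have p1 : ∏ j ∈ Finset.range 98, Real.Gamma ((1 + (n : ℝ) + j) / (100 : ℕ)) =
        ∏ j ∈ Finset.range 98, Real.Gamma ((1 + j) / 100 + (1 / 100) * n) := by
      apply Finset.prod_congr rfl
      intro j _
      congr 1
      push_cast; ring
    have p2 : ∏ j ∈ Finset.range 98, Real.Gamma ((1 + (49 / 50) * (n : ℝ) + j) / (98 : ℕ)) =
        ∏ j ∈ Finset.range 98, Real.Gamma ((1 + j) / 98 + (1 / 100) * n) := by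
      apply Finset.prod_congr rfl
      intro j _
      congr 1
      push_cast; ring
    have p3 : (1 + (n : ℝ) + (98 : ℕ)) / (100 : ℕ) = 99 / 100 + (1 / 100) * n := by
      push_cast; ring
    have p4 : (1 + (n : ℝ) + (99 : ℕ)) / (100 : ℕ) = 1 + (1 / 100) * n := by
      push_cast; ring
    have p5 : Real.Gamma (1 + n) = n.factorial := by
      rw [add_comm]; exact Real.Gamma_nat_eq_factorial n
    have p6 : (((100 : ℕ) : ℝ)) ^ (1 + (n : ℝ) - 1) = 100 ^ n := by
      rw [add_sub_cancel_left, Real.rpow_natCast]; norm_num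
    have p7 : (((98 : ℕ) : ℝ)) ^ (1 + (49 / 50) * (n : ℝ) - 1) = ((98 : ℝ) ^ (49 / 50 : ℝ)) ^ n := by
      rw [add_sub_cancel_left, Real.rpow_mul (by norm_num), Real.rpow_natCast]; norm_num
    rw [p1, p3, p4, p5, p6] at g1
    rw [p2, p7] at g2
    have p8 : Real.Gamma (1 + 5 / 392 + (1 / 100) * (n : ℝ)) =
        ((1 / 100) * n + 5 / 392) * Real.Gamma ((1 / 100) * n + 5 / 392) := by
      rw [show 1 + 5 / 392 + (1 / 100) * (n : ℝ) = ((1 / 100) * n + 5 / 392) + 1 by ring]
      exact Real.Gamma_add_one (by positivity)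
    rw [p8, Finset.prod_div_distrib]
    have hP1 : 0 < ∏ j ∈ Finset.range 98, Real.Gamma ((1 + j) / 98 + (1 / 100) * (n : ℝ)) := by
      apply Finset.prod_pos
      intro j _
      apply Real.Gamma_pos_of_pos
      positivity
    have hG0 : 0 < Real.Gamma ((1 / 100) * (n : ℝ) + 5 / 392) :=
      Real.Gamma_pos_of_pos (by positivity)
    have h98 : 0 < (98 : ℝ) ^ (49 / 50 : ℝ) := by positivity
    set P100 := ∏ j ∈ Finset.range 98, Real.Gamma ((1 + j) / 100 + (1 / 100) * (n : ℝ))
    set P98 := ∏ j ∈ Finset.range 98, Real.Gamma ((1 + j) / 98 + (1 / 100) * (n : ℝ))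
    set A := Real.Gamma (99 / 100 + (1 / 100) * (n : ℝ))
    set B := Real.Gamma (1 + (1 / 100) * (n : ℝ))
    set G := Real.Gamma ((1 / 100) * (n : ℝ) + 5 / 392)
    set H := Real.Gamma (1 + (49 / 50) * (n : ℝ))
    set q := (98 : ℝ) ^ (49 / 50 : ℝ)
    have hrn : r ^ n = 100 ^ n / q ^ n := by rw [hr, div_pow]
    rw [hrn]
    have hqn : 0 < q ^ n := by positivity
    have ht : 0 < (1 / 100) * (n : ℝ) + 5 / 392 := by positivity
    have e1 : (n.factorial : ℝ) = 100 ^ n * (P100 * A * B) / D100 := by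
      rw [← g1]; field_simp
    have e2 : H = q ^ n * P98 / D98 := by
      rw [← g2]; field_simp
    rw [e1, e2]
    have e3 : (5 / 4 + (49 / 50) * (n : ℝ)) = 98 * ((1 / 100) * (n : ℝ) + 5 / 392) := by ring
    rw [e3]
    field_simp
    ring
  rw [hfun]
  exact h


open scoped ContDiff

/-- If `n! b n` is a Stieltjes moment sequence and `∑ b n x ^ n` is entire, then
`x ↦ ∑ b n (-x) ^ n` is completely monotone. -/
lemma cm_of_isStieltjes {b : ℕ → ℝ} (hb : IsStieltjes (fun n => (n.factorial : ℝ) * b n))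
    (hs : ∀ x : ℝ, Summable (fun n : ℕ => x ^ n * b n)) :
    ContDiffOn ℝ ∞ (fun x : ℝ => ∑' n : ℕ, (-x) ^ n * b n) (Ioi 0) ∧
    ∀ k : ℕ, ∀ x : ℝ, 0 < x →
      0 ≤ (-1) ^ k * iteratedDeriv k (fun x : ℝ => ∑' n : ℕ, (-x) ^ n * b n) x := by
  obtain ⟨hb0, μ, hμ⟩ := hb
  have hfin : IsFiniteMeasure μ := finite_of_moments hμ
  have hbn : ∀ n, 0 ≤ b n := by
    intro n
    have h1 := hb0 n
    have h2 : (0 : ℝ) < n.factorial := by exact_mod_cast n.factorial_pos
    exact nonneg_of_mul_nonneg_right h1 h2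
  set X : ℝ≥0 → ℝ := fun y => (y : ℝ) with hX
  have hXm : Measurable X := by fun_prop
  -- moments
  have hpow : ∀ n : ℕ, Integrable (fun y => X y ^ n) μ := by
    intro n
    refine ⟨by fun_prop, ?_⟩
    rw [hasFiniteIntegral_iff_norm]
    have h1 : ∀ y : ℝ≥0, ENNReal.ofReal ‖X y ^ n‖ = (y : ℝ≥0∞) ^ n := by
      intro y
      simp only [hX]
      rw [Real.norm_of_nonneg (by positivity), ENNReal.ofReal_pow (by positivity),
        ENNReal.ofReal_coe_nnreal]
    rw [lintegral_congr h1, hμ]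
    exact ENNReal.ofReal_lt_top
  have hmom : ∀ n : ℕ, ∫ y, X y ^ n ∂μ = n.factorial * b n := by
    intro n
    rw [integral_eq_lintegral_of_nonneg_ae (ae_of_all _ fun y => by simp only [hX]; positivity)
      (by fun_prop)]
    have h1 : ∀ y : ℝ≥0, ENNReal.ofReal (X y ^ n) = (y : ℝ≥0∞) ^ n := by
      intro y
      simp only [hX]
      rw [ENNReal.ofReal_pow (by positivity), ENNReal.ofReal_coe_nnreal]
    rw [lintegral_congr h1, hμ, ENNReal.toReal_ofReal (hb0 n)]
  -- exponential integrability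
  have hexp_pos : ∀ t : ℝ, 0 ≤ t → Integrable (fun y => Real.exp (t * X y)) μ := by
    intro t ht
    refine ⟨by fun_prop, ?_⟩
    rw [hasFiniteIntegral_iff_norm]
    have h1 : ∀ y : ℝ≥0, ENNReal.ofReal ‖Real.exp (t * X y)‖ =
        ∑' n : ℕ, ENNReal.ofReal (t ^ n / n.factorial) * (y : ℝ≥0∞) ^ n := by
      intro y
      rw [Real.norm_of_nonneg (Real.exp_pos _).le, Real.exp_eq_exp_ℝ, NormedSpace.exp_eq_tsum_div,
        ENNReal.ofReal_tsum_of_nonneg]
      · congr 1
        funext n
        simp only [hX]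
        rw [mul_pow, mul_div_right_comm, ENNReal.ofReal_mul (by positivity),
          ENNReal.ofReal_pow (by positivity), ENNReal.ofReal_coe_nnreal]
      · intro n; simp only [hX]; positivity
      · exact NormedSpace.expSeries_div_summable (𝔸 := ℝ) (t * X y)
    rw [lintegral_congr h1, lintegral_tsum (fun n => by fun_prop)]
    have h2 : ∀ n : ℕ, ∫⁻ y : ℝ≥0, ENNReal.ofReal (t ^ n / n.factorial) * (y : ℝ≥0∞) ^ n ∂μ =
        ENNReal.ofReal (t ^ n * b n) := by
      intro n
      rw [lintegral_const_mul _ (by fun_prop), hμ, ← ENNReal.ofReal_mul (by positivity)]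
      congr 1
      have : (n.factorial : ℝ) ≠ 0 := by exact_mod_cast n.factorial_ne_zero
      field_simp
    simp_rw [h2]
    rw [← ENNReal.ofReal_tsum_of_nonneg (fun n => mul_nonneg (by positivity) (hbn n)) (hs t)]
    exact ENNReal.ofReal_lt_top
  have hexp : ∀ t : ℝ, Integrable (fun y => Real.exp (t * X y)) μ := by
    intro t
    rcases le_total 0 t with ht | ht
    · exact hexp_pos t ht
    · refine Integrable.mono' (integrable_const (1 : ℝ)) (by fun_prop) (ae_of_all _ fun y => ?_)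
      rw [Real.norm_of_nonneg (Real.exp_pos _).le]
      apply Real.exp_le_one_iff.2
      exact mul_nonpos_of_nonpos_of_nonneg ht (by simp only [hX]; positivity)
  have hset : ∀ t : ℝ, t ∈ interior (integrableExpSet X μ) := by
    intro t
    have : integrableExpSet X μ = univ := by
      ext t; simp only [mem_univ, iff_true]; exact hexp t
    rw [this, interior_univ]; trivial
  -- the series is the moment generating function
  have hmgf : ∀ t : ℝ, ∑' n : ℕ, t ^ n * b n = mgf X μ t := by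
    intro t
    have hF_int : ∀ n : ℕ, Integrable (fun y => (t * X y) ^ n / n.factorial) μ := by
      intro n
      simp_rw [mul_pow]
      exact ((hpow n).const_mul _).div_const _
    have hF_norm : ∀ n : ℕ, ∫ y, ‖(t * X y) ^ n / n.factorial‖ ∂μ = |t| ^ n * b n := by
      intro n
      have h1 : ∀ y : ℝ≥0, ‖(t * X y) ^ n / n.factorial‖ = (|t| ^ n / n.factorial) * X y ^ n := by
        intro y
        have hy : |X y| = X y := abs_of_nonneg (by simp only [hX]; positivity)
        rw [norm_div, norm_pow, norm_mul, Real.norm_eq_abs, Real.norm_eq_abs, hy, mul_pow,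
          Real.norm_of_nonneg (by positivity)]
        ring
      simp_rw [h1]
      rw [integral_const_mul, hmom]
      have : (n.factorial : ℝ) ≠ 0 := by exact_mod_cast n.factorial_ne_zero
      field_simp
    have hF_sum : Summable fun n : ℕ => ∫ y, ‖(t * X y) ^ n / n.factorial‖ ∂μ := by
      simp_rw [hF_norm]
      exact hs |t|
    have hmain := hasSum_integral_of_summable_integral_norm hF_int hF_sum
    have h2 : ∀ n : ℕ, ∫ y, (t * X y) ^ n / n.factorial ∂μ = t ^ n * b n := by
      intro n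
      have h1 : ∀ y : ℝ≥0, (t * X y) ^ n / n.factorial = (t ^ n / n.factorial) * X y ^ n := by
        intro y; rw [mul_pow]; ring
      simp_rw [h1]
      rw [integral_const_mul, hmom]
      have : (n.factorial : ℝ) ≠ 0 := by exact_mod_cast n.factorial_ne_zero
      field_simp
    simp_rw [h2] at hmain
    rw [hmain.tsum_eq, mgf]
    congr 1
    funext y
    rw [Real.exp_eq_exp_ℝ, NormedSpace.exp_eq_tsum_div]
  have hfeq : (fun x : ℝ => ∑' n : ℕ, (-x) ^ n * b n) = fun x => mgf X μ (-x) := by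
    funext x; exact hmgf (-x)
  rw [hfeq]
  refine ⟨?_, ?_⟩
  · have h1 : AnalyticOnNhd ℝ (mgf X μ) univ := by
      intro t _
      exact analyticAt_mgf (hset t)
    have h2 : ContDiff ℝ ∞ (mgf X μ) := by
      rw [← contDiffOn_univ]
      exact h1.contDiffOn uniqueDiffOn_univ
    exact (h2.comp contDiff_neg).contDiffOn
  · intro k x _
    rw [iteratedDeriv_comp_neg, iteratedDeriv_mgf (hset (-x)), smul_eq_mul, ← mul_assoc,
      ← mul_pow]
    simp only [mul_neg, mul_one, neg_neg, one_pow, one_mul]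
    apply integral_nonneg
    intro y
    simp only [hX, Pi.zero_apply]
    positivity

/-- lower bound for Gamma used for summability -/
lemma gamma_ge {s A : ℝ} (hs : 1 ≤ s) (hA : 0 < A) : A ^ (s - 1) * Real.exp (-A) ≤ Real.Gamma s := by
  rw [Real.Gamma_eq_integral (by linarith)]
  have hint := Real.GammaIntegral_convergent (s := s) (by linarith)
  have h1 : ∫ x in Ioi A, Real.exp (-x) * x ^ (s - 1) ≤ ∫ x in Ioi 0, Real.exp (-x) * x ^ (s - 1) := by
    apply setIntegral_mono_set hint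
    · filter_upwards [ae_restrict_mem measurableSet_Ioi] with x hx
      have hx : 0 < x := hx
      simp only [Pi.zero_apply]
      positivity
    · exact (Ioi_subset_Ioi hA.le).eventuallyLE
  have h2 : ∫ x in Ioi A, A ^ (s - 1) * Real.exp (-x) ≤ ∫ x in Ioi A, Real.exp (-x) * x ^ (s - 1) := by
    apply setIntegral_mono_on
    · exact (integrableOn_exp_neg_Ioi A).const_mul _
    · exact hint.mono_set (Ioi_subset_Ioi hA.le)
    · exact measurableSet_Ioi
    · intro x hx
      have hx : A < x := hx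
      rw [mul_comm]
      apply mul_le_mul_of_nonneg_left _ (Real.exp_pos _).le
      exact Real.rpow_le_rpow hA.le hx.le (by linarith)
  rw [integral_const_mul, integral_exp_neg_Ioi] at h2
  linarith

lemma summable_main (x : ℝ) :
    Summable (fun n : ℕ => x ^ n * ((Real.Gamma ((1 / 100) * n + 5 / 392)) ^ 2)⁻¹) := by
  -- choose `A` with `A ^ (1/50) = 2 |x| + 1`
  obtain ⟨A, hA⟩ : ∃ A : ℝ, A = (2 * |x| + 1) ^ (50 : ℕ) := ⟨_, rfl⟩
  have hApos : 0 < A := by rw [hA]; positivity
  have hA1 : 1 ≤ A := by rw [hA]; exact one_le_pow₀ (by linarith [abs_nonneg x])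
  rw [← summable_nat_add_iff 100]
  obtain ⟨C, hC⟩ : ∃ C : ℝ, C = (Real.exp (-A) ^ 2)⁻¹ * |x| ^ 100 := ⟨_, rfl⟩
  have hC0 : 0 ≤ C := by
    rw [hC]; exact mul_nonneg (inv_nonneg.2 (sq_nonneg _)) (pow_nonneg (abs_nonneg x) _)
  refine Summable.of_norm_bounded (g := fun n : ℕ => C * (1 / 2) ^ n)
    (summable_geometric_two.mul_left C) ?_
  intro n
  have hs : 1 ≤ (1 / 100) * ((n + 100 : ℕ) : ℝ) + 5 / 392 := by
    push_cast
    have : (0 : ℝ) ≤ n := n.cast_nonneg
    linarith
  have hG := gamma_ge hs hApos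
  have hexp : A ^ ((1 / 100 : ℝ) * n) ≤ A ^ ((1 / 100) * ((n + 100 : ℕ) : ℝ) + 5 / 392 - 1) := by
    apply Real.rpow_le_rpow_of_exponent_le hA1
    push_cast
    linarith
  have hA3 : (A ^ ((1 / 100 : ℝ) * n)) ^ 2 = (2 * |x| + 1) ^ n := by
    rw [← Real.rpow_natCast, ← Real.rpow_mul hApos.le, hA, ← Real.rpow_natCast,
      ← Real.rpow_mul (by positivity)]
    rw [← Real.rpow_natCast (2 * |x| + 1) n]
    congr 1
    push_cast; ring
  have hG2 : (2 * |x| + 1) ^ n * Real.exp (-A) ^ 2 ≤
      (Real.Gamma ((1 / 100) * ((n + 100 : ℕ) : ℝ) + 5 / 392)) ^ 2 := by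
    rw [← hA3, ← mul_pow]
    apply pow_le_pow_left₀ (by positivity)
    calc A ^ ((1 / 100 : ℝ) * n) * Real.exp (-A)
        ≤ A ^ ((1 / 100) * ((n + 100 : ℕ) : ℝ) + 5 / 392 - 1) * Real.exp (-A) :=
          mul_le_mul_of_nonneg_right hexp (Real.exp_pos _).le
      _ ≤ _ := hG
  have hpos : 0 < (2 * |x| + 1) ^ n * Real.exp (-A) ^ 2 := by positivity
  rw [norm_mul, norm_pow, Real.norm_eq_abs, norm_inv, Real.norm_of_nonneg (by positivity)]
  calc |x| ^ (n + 100) * ((Real.Gamma ((1 / 100) * ((n + 100 : ℕ) : ℝ) + 5 / 392)) ^ 2)⁻¹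
      ≤ |x| ^ (n + 100) * ((2 * |x| + 1) ^ n * Real.exp (-A) ^ 2)⁻¹ := by
        exact mul_le_mul_of_nonneg_left (inv_anti₀ hpos hG2) (pow_nonneg (abs_nonneg x) _)
    _ = C * (|x| / (2 * |x| + 1)) ^ n := by
        rw [hC, pow_add, div_pow, mul_inv]
        ring
    _ ≤ C * (1 / 2) ^ n := by
        refine mul_le_mul_of_nonneg_left ?_ hC0
        apply pow_le_pow_left₀ (by positivity)
        rw [div_le_div_iff₀ (by positivity) (by norm_num)]
        linarith [abs_nonneg x]

lemma cond_fails_aux {w : ℝ} (hw : w = 22 / 100) : (100 / 156 : ℝ) < w ^ (27 / 98 : ℝ) := by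
  have w0 : 0 < w := by rw [hw]; norm_num
  have h4 : ((100 / 156 : ℝ)) = (((100 / 156 : ℝ)) ^ (98 : ℕ)) ^ (1 / 98 : ℝ) := by
    rw [← Real.rpow_natCast, ← Real.rpow_mul (by norm_num),
      show ((98 : ℕ) : ℝ) * (1 / 98) = 1 by norm_num, Real.rpow_one]
  have h5 : w ^ (27 / 98 : ℝ) = (w ^ (27 : ℕ)) ^ (1 / 98 : ℝ) := by
    rw [← Real.rpow_natCast, ← Real.rpow_mul w0.le]
    congr 1
    norm_num
  rw [h4, h5]
  apply Real.rpow_lt_rpow (by positivity) _ (by norm_num)
  rw [hw]
  norm_num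

/-- The condition `(C)` fails at `α = 1/100`, `β = 5/392`, `γ = 2`. -/
lemma cond_fails : ∃ z ∈ Ioo (0 : ℝ) 1,
    1 < z + 2 * (z ^ ((5 / 392 : ℝ) - 1 / 100) - z ^ (5 / 392 : ℝ)) := by
  obtain ⟨w, hw⟩ : ∃ w : ℝ, w = 22 / 100 := ⟨_, rfl⟩
  have w0 : 0 < w := by rw [hw]; norm_num
  have w1 : w < 1 := by rw [hw]; norm_num
  have h3 := cond_fails_aux hw
  have h1 : (w ^ (100 : ℕ)) ^ ((5 / 392 : ℝ) - 1 / 100) = w ^ (27 / 98 : ℝ) := by
    rw [← Real.rpow_natCast, ← Real.rpow_mul w0.le]
    congr 1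
    norm_num
  have h2 : (w ^ (100 : ℕ)) ^ (5 / 392 : ℝ) = w ^ (27 / 98 : ℝ) * w := by
    rw [← Real.rpow_natCast, ← Real.rpow_mul w0.le, ← Real.rpow_add_one w0.ne']
    congr 1
    norm_num
  refine ⟨w ^ (100 : ℕ), ⟨pow_pos w0 _, pow_lt_one₀ w0.le w1 (by norm_num)⟩, ?_⟩
  rw [h1, h2]
  have key : ∀ u v : ℝ, 0 < u → 100 / 156 < v → 1 < u + 2 * (v - v * w) := by
    intro u v hu hv; rw [hw]; linarith
  exact key _ _ (pow_pos w0 _) h3

/-- **Q1 is false.** There are `α, β, γ > 0` (the proof takes `α = 1/100`, `β = 5/392`, `γ = 2`) such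
that the Le Roy type Mittag-Leffler function `x ↦ F(-x)` is completely monotone on `(0, ∞)`, but
`z + γ (z ^ (β - α) - z ^ β) > 1` for some `z ∈ (0, 1)`. -/
theorem result : ∃ α β γ : ℝ, 0 < α ∧ 0 < β ∧ 0 < γ ∧
    (∀ x : ℝ, Summable (fun n : ℕ => x ^ n / (Real.Gamma (α * n + β)) ^ γ)) ∧
    (ContDiffOn ℝ ∞ (fun x : ℝ => ∑' n : ℕ, (-x) ^ n / (Real.Gamma (α * n + β)) ^ γ) (Ioi 0) ∧
      ∀ k : ℕ, ∀ x : ℝ, 0 < x →
        0 ≤ (-1) ^ k * iteratedDeriv k
          (fun x : ℝ => ∑' n : ℕ, (-x) ^ n / (Real.Gamma (α * n + β)) ^ γ) x) ∧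
    ∃ z ∈ Ioo (0 : ℝ) 1, 1 < z + γ * (z ^ (β - α) - z ^ β) := by
  have hterm : ∀ (x : ℝ) (n : ℕ), x ^ n / (Real.Gamma ((1 / 100) * n + 5 / 392)) ^ (2 : ℝ) =
      x ^ n * ((Real.Gamma ((1 / 100) * n + 5 / 392)) ^ 2)⁻¹ := by
    intro x n
    rw [Real.rpow_two, div_eq_mul_inv]
  refine ⟨1 / 100, 5 / 392, 2, by norm_num, by norm_num, by norm_num, ?_, ?_, cond_fails⟩
  · intro x
    simp_rw [hterm]
    exact summable_main x
  · simp_rw [hterm]
    apply cm_of_isStieltjes _ summable_main
    simpa only [div_eq_mul_inv] using isStieltjes_main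

end Pool.Agent.Results.MP_b81f9a_an.Counterexample
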